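import Pool.Agent.Y321.PD.Per

/-!
# MP_afa31c_an: density of the periodic points from the Jacobians at the periodic points
-/

set_option autoImplicit false

open scoped Manifold ContDiff Topology
open Set Filter

namespace Pool.Agent.Results.MP_afa31c_an.PeriodicJacobianPeriodic

open Pool.Agent.H721R2 Pool.Agent.H789R2.AN

/-- `|det D(fⁿ)(p)|`, for a point `p` with `fⁿ(p) = p`: the absolute value of the determinant of
the derivative of `fⁿ` at `p`, which is an endomorphism of the tangent space at `p`. -/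
noncomputable def perJac (E : Type*) [NormedAddCommGroup E] [NormedSpace ℝ E]
    {M : Type*} [TopologicalSpace M] [ChartedSpace E M] (f : M → M) (n : ℕ) (p : M) : ℝ :=
  |(mfderiv 𝓘(ℝ, E) 𝓘(ℝ, E) (f^[n]) p : E →L[ℝ] E).det|

/-- **Density of the periodic points from the Jacobians at the periodic points.**
Let `f` be a `C²` Anosov diffeomorphism of a closed connected manifold `M`.

* If `|det D(fᵏ)(p)| ≥ 1` whenever `k ≥ 1` and `fᵏ(p) = p`, or `|det D(fᵏ)(p)| ≤ 1` whenever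
  `k ≥ 1` and `fᵏ(p) = p`, then the periodic points of `f` are dense in `M` and every point of `M`
  is nonwandering.
* If some point of `M` is wandering, then there are `n ≥ 1` and finite sets `P`, `Q` of fixed
  points of `fⁿ`, with `|det D(fⁿ)| < 1` on `P` and `|det D(fⁿ)| > 1` on `Q`, such that the points
  heteroclinic from `Q` to `P` are dense in `M`. -/
theorem result (E : Type*) [NormedAddCommGroup E] [NormedSpace ℝ E] [FiniteDimensional ℝ E]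
    (M : Type*) [TopologicalSpace M] [T2Space M] [CompactSpace M] [ConnectedSpace M]
    [ChartedSpace E M] [IsManifold 𝓘(ℝ, E) ∞ M] (f : Diffeomorph 𝓘(ℝ, E) 𝓘(ℝ, E) M M 1)
    (hf2 : ContMDiff 𝓘(ℝ, E) 𝓘(ℝ, E) 2 f) (hf2' : ContMDiff 𝓘(ℝ, E) 𝓘(ℝ, E) 2 f.symm)
    (Es Eu : ∀ x : M, Submodule ℝ (TangentSpace 𝓘(ℝ, E) x)) (hA : IsAnosov f Es Eu) :
    ((∀ (k : ℕ) (p : M), 1 ≤ k → f^[k] p = p → 1 ≤ perJac E f k p) ∨
      (∀ (k : ℕ) (p : M), 1 ≤ k → f^[k] p = p → perJac E f k p ≤ 1) →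
        Dense (Function.periodicPts f) ∧
        ∀ x : M, ∀ U ∈ 𝓝 x, ∃ n : ℕ, 1 ≤ n ∧ (f^[n] '' U ∩ U).Nonempty) ∧
    ((∃ x : M, ∃ U ∈ 𝓝 x, ∀ n : ℕ, 1 ≤ n → ¬ (f^[n] '' U ∩ U).Nonempty) →
      ∃ (n : ℕ) (P Q : Set M), 1 ≤ n ∧ P.Finite ∧ Q.Finite ∧
      (∀ p ∈ P, f^[n] p = p ∧ perJac E f n p < 1) ∧
      (∀ q ∈ Q, f^[n] q = q ∧ 1 < perJac E f n q) ∧
      Dense {x : M | (∃ p ∈ P, Tendsto (fun k : ℕ => f^[n * k] x) atTop (𝓝 p)) ∧
        ∃ q ∈ Q, Tendsto (fun k : ℕ => f.symm^[n * k] x) atTop (𝓝 q)}) := by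
  have hnw : TopTransitive f → ∀ U : Set M, IsOpen U → U.Nonempty →
      ∃ m : ℕ, 1 ≤ m ∧ (f^[m] '' U ∩ U).Nonempty := by
    intro htr U hU hUn
    have hfU : IsOpen (f '' U) := f.toHomeomorph.isOpenMap U hU
    obtain ⟨n, _, ⟨_, ⟨x, hx, rfl⟩, rfl⟩, hy⟩ := htr (f '' U) U hfU (hUn.image f) hU hUn
    exact ⟨n + 1, by omega, f^[n] (f x), ⟨x, hx, by rw [Function.iterate_succ_apply]⟩, hy⟩
  constructor
  · intro h
    have h1 := Pool.Agent.Y321.PD.nw_of_jac f hf2 hf2' Es Eu hA (Or.inr h)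
    refine ⟨Pool.Agent.Y321.PD.dense_per E M f Es Eu hA h1, fun x U hU => ?_⟩
    obtain ⟨V, hVU, hV, hxV⟩ := mem_nhds_iff.mp hU
    obtain ⟨n, hn, y, ⟨z, hz, rfl⟩, hy⟩ := h1 V hV ⟨x, hxV⟩
    exact ⟨n, hn, _, ⟨z, hVU hz, rfl⟩, hVU hy⟩
  · rintro ⟨x, U, hU, h⟩
    refine Pool.Agent.Y321.PJ.main f hf2 hf2' Es Eu hA fun htr => ?_
    obtain ⟨V, hVU, hV, hxV⟩ := mem_nhds_iff.mp hU
    obtain ⟨n, hn, y, ⟨z, hz, rfl⟩, hy⟩ := hnw htr V hV ⟨x, hxV⟩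
    exact h n hn ⟨_, ⟨z, hVU hz, rfl⟩, hVU hy⟩

end Pool.Agent.Results.MP_afa31c_an.PeriodicJacobianPeriodic
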